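import Mathlib
import Pool.Agent.Lib.MP_314673_lc.Defs
import Pool.Agent.Lib.MP_314673_lc.Final

namespace Pool.Agent.Results.MP_314673_lc.UnbalancedColouring

open C314 MeasureTheory

/-- If a Borel multigraph `G` of maximum degree `Δ` has an unbalanced bipartition `(A, B)`, then
its measurable edge-chromatic number is at most `Δ` for every Borel probability measure on the
vertex set. -/
theorem result {V E : Type*} [MeasurableSpace V] [StandardBorelSpace V] [MeasurableSpace E]
    [StandardBorelSpace E] (G : BorelMultigraph V E) (Δ : ℕ) (hΔ : G.HasMaxDegree Δ)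
    (A B : Set V) (hAB : G.IsBipartition A B) (hub : G.IsUnbalanced A B)
    (μ : Measure V) [IsProbabilityMeasure μ] :
    G.measChromaticIndex μ ≤ Δ :=
  iInf₂_le Δ (G.colourable Δ hΔ.1 A B hAB hub μ)

end Pool.Agent.Results.MP_314673_lc.UnbalancedColouring
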